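import Pool.Agent.H80.G2.Targets

/-!
# Almost central symmetries (row CUT of the board gmm, helper10)
-/

set_option autoImplicit false

open scoped InnerProductSpace Topology
open Filter Finset
open Pool.Agent.H80.G2

namespace Pool.Agent.H10.G2

variable {H : Type} [NormedAddCommGroup H] [InnerProductSpace ℂ H] [CompleteSpace H]

theorem part {N : VonNeumannAlgebra H} {ξ : ℕ → H} (h : IsTr N ξ) (T : H →L[ℂ] H) (hT : T ∈ N)
    (hT1 : ‖T‖ ≤ 1) (c : ℂ) (hc : ‖c‖ = 1 / 2) :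
    (c • T + (starRingEnd ℂ) c • star T) ∈ N ∧
    star (c • T + (starRingEnd ℂ) c • star T) = c • T + (starRingEnd ℂ) c • star T ∧
    ‖c • T + (starRingEnd ℂ) c • star T‖ ≤ 1 ∧
    ∀ x ∈ N, ∀ δ : ℝ, n2 ξ (T * x - x * T) ≤ δ → n2 ξ (T * star x - star x * T) ≤ δ →
      n2 ξ ((c • T + (starRingEnd ℂ) c • star T) * x -
        x * (c • T + (starRingEnd ℂ) c • star T)) ≤ δ := by
  have hcc : ‖(starRingEnd ℂ) c‖ = 1 / 2 := by rw [RCLike.norm_conj, hc]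
  refine ⟨add_mem (smul_mem' N _ hT) (smul_mem' N _ (star_mem hT)), ?_, ?_, ?_⟩
  · rw [star_add, star_smul, star_smul, star_star]
    have h1 : star c = (starRingEnd ℂ) c := rfl
    have h2 : star ((starRingEnd ℂ) c) = c := by
      show (starRingEnd ℂ) ((starRingEnd ℂ) c) = c
      rw [Complex.conj_conj]
    rw [h1, h2, add_comm]
  · refine (norm_add_le _ _).trans ?_
    rw [norm_smul, norm_smul, hc, hcc, norm_star]
    linarith
  · intro x hx δ h1 h2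
    have h3 : (c • T + (starRingEnd ℂ) c • star T) * x - x * (c • T + (starRingEnd ℂ) c • star T) =
        c • (T * x - x * T) + (starRingEnd ℂ) c • (star T * x - x * star T) := by
      rw [add_mul, mul_add, smul_mul_assoc, smul_mul_assoc, mul_smul_comm, mul_smul_comm, smul_sub,
        smul_sub]
      abel
    have h4 : n2 ξ (star T * x - x * star T) ≤ δ := by
      have h5 : star T * x - x * star T = -star (T * star x - star x * T) := by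
        rw [star_sub, star_mul, star_mul, star_star]
        abel
      rw [h5, n2_neg, n2_star h (sub_mem (mul_mem hT (star_mem hx)) (mul_mem (star_mem hx) hT))]
      exact h2
    rw [h3]
    refine (n2_add h.sum _ _).trans ?_
    rw [n2_smul h.sum, n2_smul h.sum, hc, hcc]
    linarith

theorem exists_sa {N : VonNeumannAlgebra H} {ξ : ℕ → H} (h : IsTr N ξ) (hA : Alm (2 / 5) N ξ)
    (F : Finset (H →L[ℂ] H)) (hF : ∀ x ∈ F, x ∈ N) (δ : ℝ) (hδ : 0 < δ) :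
    ∃ a ∈ N, star a = a ∧ ‖a‖ ≤ 1 ∧ (∀ x ∈ F, n2 ξ (a * x - x * a) ≤ δ) ∧
      1 / 5 ≤ n2 ξ (a - tr ξ a • (1 : H →L[ℂ] H)) := by
  classical
  obtain ⟨T, hT, hT1, hTc, hTn⟩ := hA (F ∪ F.image star) (by
    intro x hx
    rcases Finset.mem_union.1 hx with hx | hx
    · exact hF x hx
    · obtain ⟨y, hy, rfl⟩ := Finset.mem_image.1 hx
      exact star_mem (hF y hy)) δ hδ
  have hc1 : ∀ x ∈ F, n2 ξ (T * x - x * T) ≤ δ := fun x hx =>
    (hTc x (Finset.mem_union_left _ hx)).le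
  have hc2 : ∀ x ∈ F, n2 ξ (T * star x - star x * T) ≤ δ := fun x hx =>
    (hTc (star x) (Finset.mem_union_right _ (Finset.mem_image_of_mem _ hx))).le
  have n1 : ‖(1 / 2 : ℂ)‖ = 1 / 2 := by norm_num
  have n3 : ‖(-(Complex.I / 2) : ℂ)‖ = 1 / 2 := by
    rw [norm_neg, norm_div, Complex.norm_I]
    norm_num
  obtain ⟨a1, a2, a3, a4⟩ := part h T hT hT1 (1 / 2) n1
  obtain ⟨b1, b2, b3, b4⟩ := part h T hT hT1 (-(Complex.I / 2)) n3
  set A := (1 / 2 : ℂ) • T + (starRingEnd ℂ) (1 / 2 : ℂ) • star T with hAdef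
  set B := (-(Complex.I / 2) : ℂ) • T + (starRingEnd ℂ) (-(Complex.I / 2) : ℂ) • star T with hBdef
  have hsum : T = A + Complex.I • B := by
    rw [hAdef, hBdef, smul_add, smul_smul, smul_smul]
    have e1 : Complex.I * (-(Complex.I / 2)) = 1 / 2 := by
      have := Complex.I_mul_I
      linear_combination (-1 / 2 : ℂ) * this
    have e2 : Complex.I * (starRingEnd ℂ) (-(Complex.I / 2)) = -(1 / 2) := by
      have h1 : (starRingEnd ℂ) (-(Complex.I / 2)) = Complex.I / 2 := by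
        rw [map_neg, map_div₀, Complex.conj_I]
        have : (starRingEnd ℂ) (2 : ℂ) = 2 := Complex.conj_ofNat 2
        rw [this]
        ring
      rw [h1]
      have := Complex.I_mul_I
      linear_combination (1 / 2 : ℂ) * this
    have e3 : (starRingEnd ℂ) (1 / 2 : ℂ) = 1 / 2 := by
      rw [map_div₀, map_one]
      have : (starRingEnd ℂ) (2 : ℂ) = 2 := Complex.conj_ofNat 2
      rw [this]
    rw [e1, e2, e3]
    module
  have hn : n2 ξ (T - tr ξ T • (1 : H →L[ℂ] H)) ≤ n2 ξ (A - tr ξ A • (1 : H →L[ℂ] H)) +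
      n2 ξ (B - tr ξ B • (1 : H →L[ℂ] H)) := by
    have e1 : T - tr ξ T • (1 : H →L[ℂ] H) = (A - tr ξ A • (1 : H →L[ℂ] H)) +
        Complex.I • (B - tr ξ B • (1 : H →L[ℂ] H)) := by
      conv_lhs => rw [hsum]
      rw [tr_add h.sum, tr_smul]
      module
    rw [e1]
    refine (n2_add h.sum _ _).trans ?_
    rw [n2_smul h.sum, Complex.norm_I, one_mul]
  by_cases hAn : 1 / 5 ≤ n2 ξ (A - tr ξ A • (1 : H →L[ℂ] H))
  · exact ⟨A, a1, a2, a3, fun x hx => a4 x (hF x hx) δ (hc1 x hx) (hc2 x hx), hAn⟩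
  · refine ⟨B, b1, b2, b3, fun x hx => b4 x (hF x hx) δ (hc1 x hx) (hc2 x hx), ?_⟩
    push Not at hAn
    linarith

theorem n2_sub_tr_le {N : VonNeumannAlgebra H} {ξ : ℕ → H} (h : IsTr N ξ) (x : H →L[ℂ] H) :
    n2 ξ (x - tr ξ x • (1 : H →L[ℂ] H)) ≤ n2 ξ x := by
  have h1 := n2_sub_tr h.one x
  have h2 : n2 ξ (x - tr ξ x • (1 : H →L[ℂ] H)) ^ 2 ≤ n2 ξ x ^ 2 := by
    rw [h1]
    nlinarith [sq_nonneg ‖tr ξ x‖]
  exact (sq_le_sq₀ (n2_nonneg _ _) (n2_nonneg _ _)).1 h2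

/-- the sum of the distances to the scalars -/
theorem sum_g {N : VonNeumannAlgebra H} {ξ : ℕ → H} (h : IsTr N ξ) (a : H →L[ℂ] H) (K : ℕ)
    (hK0 : (0 : ℝ) < K) (e : ℕ → (H →L[ℂ] H))
    (hlay : ‖a + 1 - ((2 / K : ℝ) : ℂ) • ∑ k ∈ range K, e k‖ ≤ 2 / K)
    (had : 1 / 5 ≤ n2 ξ (a - tr ξ a • (1 : H →L[ℂ] H))) :
    (K : ℝ) / 10 - 1 ≤ ∑ k ∈ range K, n2 ξ (e k - tr ξ (e k) • (1 : H →L[ℂ] H)) := by
  have hnormK : ‖((2 / K : ℝ) : ℂ)‖ = 2 / K := by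
    rw [Complex.norm_real, Real.norm_eq_abs, abs_of_pos (by positivity)]
  obtain ⟨r, hr⟩ : ∃ r : H →L[ℂ] H, r = a + 1 - ((2 / K : ℝ) : ℂ) • ∑ k ∈ range K, e k := ⟨_, rfl⟩
  rw [← hr] at hlay
  have hn2 : n2 ξ r ≤ 2 / K := (n2_le_norm h.one _).trans hlay
  have h1 : a - tr ξ a • (1 : H →L[ℂ] H) =
      ((2 / K : ℝ) : ℂ) • ∑ k ∈ range K, (e k - tr ξ (e k) • (1 : H →L[ℂ] H)) +
      (r - tr ξ r • (1 : H →L[ℂ] H)) := by
    rw [hr, tr_sub h.sum, tr_add h.sum, tr_smul, tr_one' h.one, tr_sum h.sum,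
      Finset.sum_sub_distrib, ← Finset.sum_smul]
    module
  have h2 : n2 ξ (a - tr ξ a • (1 : H →L[ℂ] H)) ≤
      (2 / K) * ∑ k ∈ range K, n2 ξ (e k - tr ξ (e k) • (1 : H →L[ℂ] H)) + 2 / K := by
    rw [h1]
    refine (n2_add h.sum _ _).trans ?_
    rw [n2_smul h.sum, hnormK]
    have h3 := n2_sum h.sum (range K) (fun k => e k - tr ξ (e k) • (1 : H →L[ℂ] H))
    have h4 : (2 / K : ℝ) * n2 ξ (∑ k ∈ range K, (e k - tr ξ (e k) • (1 : H →L[ℂ] H))) ≤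
        (2 / K) * ∑ k ∈ range K, n2 ξ (e k - tr ξ (e k) • (1 : H →L[ℂ] H)) :=
      mul_le_mul_of_nonneg_left h3 (by positivity)
    have h5 := (n2_sub_tr_le h r).trans hn2
    linarith
  have h5 := had.trans h2
  have h6 : (1 / 5 : ℝ) * (K / 2) ≤ ((2 / K) * ∑ k ∈ range K, n2 ξ (e k - tr ξ (e k) •
      (1 : H →L[ℂ] H)) + 2 / K) * (K / 2) := mul_le_mul_of_nonneg_right h5 (by positivity)
  have h7 : ((2 / K) * ∑ k ∈ range K, n2 ξ (e k - tr ξ (e k) •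
      (1 : H →L[ℂ] H)) + 2 / K) * (K / 2) = ∑ k ∈ range K, n2 ξ (e k - tr ξ (e k) •
      (1 : H →L[ℂ] H)) + 1 := by
    field_simp
  rw [h7] at h6
  linarith

/-- the sum of the commutators with one element -/
theorem sum_h {N : VonNeumannAlgebra H} {ξ : ℕ → H} (h : IsTr N ξ) (hCOM : T_COM)
    (a : H →L[ℂ] H) (K : ℕ)
    (hK0 : (0 : ℝ) < K) (e : ℕ → (H →L[ℂ] H)) (he : ∀ k, Prj N (e k))
    (hdec : ∀ k, e k * e (k + 1) = e (k + 1))
    (hlay : ‖a + 1 - ((2 / K : ℝ) : ℂ) • ∑ k ∈ range K, e k‖ ≤ 2 / K) (x : H →L[ℂ] H)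
    (hx : x ∈ N) (R δ' : ℝ) (hδ' : 0 < δ') (hR : ‖x‖ ≤ R) (hR0 : 0 < R)
    (hac : n2 ξ (a * x - x * a) ≤ δ') :
    ∑ k ∈ range K, n2 ξ (e k * x - x * e k) ^ 2 ≤ K * δ' * R / 2 + 2 * R ^ 2 := by
  have h2 := hCOM H N ξ h K e he hdec x hx
  obtain ⟨S, hS⟩ : ∃ S : H →L[ℂ] H, S = ∑ k ∈ range K, e k := ⟨_, rfl⟩
  rw [← hS] at h2 hlay
  obtain ⟨r, hr⟩ : ∃ r : H →L[ℂ] H, r = a + 1 - ((2 / K : ℝ) : ℂ) • S := ⟨_, rfl⟩
  rw [← hr] at hlay
  have hn2 : n2 ξ r ≤ 2 / K := (n2_le_norm h.one _).trans hlay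
  have e1 : ((K / 2 : ℝ) : ℂ) * ((2 / K : ℝ) : ℂ) = 1 := by
    rw [← Complex.ofReal_mul]
    have : (K / 2 : ℝ) * (2 / K) = 1 := by field_simp
    rw [this, Complex.ofReal_one]
  have hSr : S = ((K / 2 : ℝ) : ℂ) • (a + 1 - r) := by
    rw [hr, sub_sub_cancel, smul_smul, e1, one_smul]
  have h3 : S * x - x * S = ((K / 2 : ℝ) : ℂ) • ((a * x - x * a) - (r * x - x * r)) := by
    conv_lhs => rw [hSr]
    rw [smul_mul_assoc, mul_smul_comm, ← smul_sub]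
    congr 1
    rw [sub_mul, add_mul, mul_sub, mul_add, one_mul, mul_one]
    abel
  have h9 : n2 ξ x ≤ R := (n2_le_norm h.one x).trans hR
  have h4 : n2 ξ ((a * x - x * a) - (r * x - x * r)) ≤ δ' + 4 * R / K := by
    refine (n2_sub h.sum _ _).trans ?_
    have h6 := n2_sub h.sum (r * x) (x * r)
    have h7 := n2_mul_le h.sum r x
    have h8 := n2_mul_le h.sum x r
    have h10 : ‖r‖ * n2 ξ x ≤ 2 / K * R := mul_le_mul hlay h9 (n2_nonneg _ _) (by positivity)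
    have h11 : ‖x‖ * n2 ξ r ≤ R * (2 / K) := mul_le_mul hR hn2 (n2_nonneg _ _) hR0.le
    have h13 : 4 * R / K = 2 / K * R + R * (2 / K) := by ring
    rw [h13]
    linarith
  have h14 : n2 ξ (S * x - x * S) ≤ K / 2 * (δ' + 4 * R / K) := by
    rw [h3, n2_smul h.sum, Complex.norm_real, Real.norm_eq_abs, abs_of_pos (by positivity)]
    exact mul_le_mul_of_nonneg_left h4 (by positivity)
  have h16 : n2 ξ (S * x - x * S) * n2 ξ x ≤ K / 2 * (δ' + 4 * R / K) * R :=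
    mul_le_mul h14 h9 (n2_nonneg _ _) (by positivity)
  have h17 : K / 2 * (δ' + 4 * R / K) * R = K * δ' * R / 2 + 2 * R ^ 2 := by
    field_simp
    ring
  rw [← h17]
  exact h2.trans h16

/-- averaging -/
theorem choose_k (K : ℕ) (g hh : ℕ → ℝ) (m R ρ δ' : ℝ) (hm0 : 0 ≤ m) (hR1 : 1 ≤ R) (hρ0 : 0 < ρ)
    (hδ' : δ' = ρ / (20 * (m + 1) * R)) (hK : 20 * (1 + 2 * m * R ^ 2 / ρ) < K)
    (hg1 : ∀ k, g k ≤ 1) (hh0 : ∀ k, 0 ≤ hh k)
    (hg : (K : ℝ) / 10 - 1 ≤ ∑ k ∈ range K, g k)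
    (hs : ∑ k ∈ range K, hh k ≤ m * (K * δ' * R / 2 + 2 * R ^ 2)) :
    ∃ k, 1 / 40 ≤ g k ∧ hh k < ρ := by
  have hK0 : (0 : ℝ) < K := lt_of_le_of_lt (by positivity) hK
  by_contra hcon
  push Not at hcon
  have h1 : ∀ k ∈ range K, g k ≤ 1 / 40 + hh k / ρ := by
    intro k hk
    by_cases hgk : 1 / 40 ≤ g k
    · have h2 := hcon k hgk
      have h3 : 1 ≤ hh k / ρ := by
        rw [le_div_iff₀ hρ0, one_mul]
        exact h2
      have := hg1 k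
      linarith
    · push Not at hgk
      have : 0 ≤ hh k / ρ := div_nonneg (hh0 k) hρ0.le
      linarith
  have h2 := Finset.sum_le_sum h1
  rw [Finset.sum_add_distrib, Finset.sum_const, Finset.card_range, nsmul_eq_mul,
    ← Finset.sum_div] at h2
  have h3 : (∑ k ∈ range K, hh k) / ρ ≤
      m * (K * δ' * R / 2 + 2 * R ^ 2) / ρ := div_le_div_of_nonneg_right hs hρ0.le
  have h4 : m * (K * δ' * R / 2 + 2 * R ^ 2) / ρ ≤ K / 40 + 2 * m * R ^ 2 / ρ := by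
    have h5 : m * (K * δ' * R / 2 + 2 * R ^ 2) / ρ = m * δ' * R / ρ * (K / 2) +
        2 * m * R ^ 2 / ρ := by ring
    have h6 : m * δ' * R / ρ ≤ 1 / 20 := by
      rw [hδ']
      have h7 : m * (ρ / (20 * (m + 1) * R)) * R / ρ = m / (m + 1) / 20 := by
        field_simp
      rw [h7]
      have h8 : m / (m + 1) ≤ 1 := by
        rw [div_le_one (by positivity)]
        linarith
      linarith
    rw [h5]
    have h7 : m * δ' * R / ρ * (K / 2) ≤ 1 / 20 * (K / 2) :=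
      mul_le_mul_of_nonneg_right h6 (by positivity)
    linarith
  linarith

theorem n2_prj_le {N : VonNeumannAlgebra H} {ξ : ℕ → H} (h : IsTr N ξ) {e : H →L[ℂ] H}
    (he : Prj N e) : n2 ξ e ≤ 1 := by
  refine (n2_le_norm h.one _).trans ?_
  have h5 := CStarRing.norm_star_mul_self (x := e)
  rw [he.2.1, he.2.2] at h5
  by_contra h6
  push Not at h6
  nlinarith

/-- CUT: almost central symmetries -/
theorem pf_CUT (hLAY : T_LAY) (hCOM : T_COM) : T_CUT := by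
  intro H _ _ _ N ξ h hA F hF δ hδ
  obtain ⟨R, hR⟩ : ∃ R : ℝ, R = 1 + ∑ x ∈ F, ‖x‖ := ⟨_, rfl⟩
  have hR1 : 1 ≤ R := by
    have : 0 ≤ ∑ x ∈ F, ‖x‖ := Finset.sum_nonneg fun x _ => norm_nonneg x
    linarith
  have hRx : ∀ x ∈ F, ‖x‖ ≤ R := fun x hx => by
    have : ‖x‖ ≤ ∑ y ∈ F, ‖y‖ := Finset.single_le_sum (fun y _ => norm_nonneg y) hx
    linarith
  obtain ⟨m, hm⟩ : ∃ m : ℝ, m = (F.card : ℝ) := ⟨_, rfl⟩
  have hm0 : 0 ≤ m := by rw [hm]; exact Nat.cast_nonneg _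
  obtain ⟨ρ, hρ⟩ : ∃ ρ : ℝ, ρ = δ ^ 2 / 4 := ⟨_, rfl⟩
  have hρ0 : 0 < ρ := by rw [hρ]; positivity
  obtain ⟨δ', hδ'⟩ : ∃ δ' : ℝ, δ' = ρ / (20 * (m + 1) * R) := ⟨_, rfl⟩
  have hδ'0 : 0 < δ' := by rw [hδ']; positivity
  obtain ⟨a, haN, has, han, hac, had⟩ := exists_sa h hA F hF δ' hδ'0
  obtain ⟨K, hK⟩ := exists_nat_gt (20 * (1 + 2 * m * R ^ 2 / ρ))
  have hK0 : (0 : ℝ) < K := lt_of_le_of_lt (by positivity) hK
  have hKpos : 0 < K := by exact_mod_cast hK0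
  obtain ⟨e, he, hdec, hlay⟩ := hLAY H N a haN has han K hKpos
  have hh : ∑ k ∈ range K, ∑ x ∈ F, n2 ξ (e k * x - x * e k) ^ 2 ≤
      m * (K * δ' * R / 2 + 2 * R ^ 2) := by
    rw [Finset.sum_comm]
    refine (Finset.sum_le_sum fun x hx => sum_h h hCOM a K hK0 e he hdec hlay x (hF x hx) R δ'
      hδ'0 (hRx x hx) (by linarith) (hac x hx)).trans (le_of_eq ?_)
    rw [Finset.sum_const, nsmul_eq_mul, hm]
  obtain ⟨k, hgk, hhk⟩ := choose_k K (fun k => n2 ξ (e k - tr ξ (e k) • (1 : H →L[ℂ] H)))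
    (fun k => ∑ x ∈ F, n2 ξ (e k * x - x * e k) ^ 2) m R ρ δ' hm0 hR1 hρ0 hδ' hK
    (fun k => (n2_sub_tr_le h (e k)).trans (n2_prj_le h (he k)))
    (fun k => Finset.sum_nonneg fun x _ => sq_nonneg _) (sum_g h a K hK0 e hlay had) hh
  obtain ⟨hek, heks, heki⟩ := he k
  have h5 : ‖(2 : ℂ)‖ = 2 := by norm_num
  refine ⟨(2 : ℂ) • e k - 1, ⟨sub_mem (smul_mem' N _ hek) (one_mem N), ?_, ?_⟩, ?_, ?_⟩
  · rw [star_sub, star_smul, heks, star_one]
    have : star (2 : ℂ) = 2 := Complex.conj_ofNat 2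
    rw [this]
  · rw [sub_mul, mul_sub, smul_mul_smul_comm, heki, mul_one, one_mul]
    module
  · intro x hx
    have h1 : ((2 : ℂ) • e k - 1) * x - x * ((2 : ℂ) • e k - 1) = (2 : ℂ) • (e k * x - x * e k) := by
      rw [sub_mul, mul_sub, smul_mul_assoc, mul_smul_comm, one_mul, mul_one, smul_sub]
      abel
    rw [h1, n2_smul h.sum]
    have h2 : n2 ξ (e k * x - x * e k) ^ 2 < ρ := by
      have : n2 ξ (e k * x - x * e k) ^ 2 ≤ ∑ y ∈ F, n2 ξ (e k * y - y * e k) ^ 2 :=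
        Finset.single_le_sum (f := fun y => n2 ξ (e k * y - y * e k) ^ 2)
          (fun y _ => sq_nonneg _) hx
      exact lt_of_le_of_lt this hhk
    have h3 : n2 ξ (e k * x - x * e k) ^ 2 < (δ / 2) ^ 2 := by
      have : (δ / 2) ^ 2 = ρ := by rw [hρ]; ring
      rw [this]
      exact h2
    have h4 := (sq_lt_sq₀ (n2_nonneg ξ (e k * x - x * e k)) (by positivity)).1 h3
    rw [h5]
    linarith
  · have h1 : (2 : ℂ) • e k - 1 - tr ξ ((2 : ℂ) • e k - 1) • (1 : H →L[ℂ] H) =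
        (2 : ℂ) • (e k - tr ξ (e k) • (1 : H →L[ℂ] H)) := by
      rw [tr_sub h.sum, tr_smul, tr_one' h.one]
      module
    rw [h1, n2_smul h.sum, h5]
    linarith

end Pool.Agent.H10.G2
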