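import Pool.Agent.H80.G2.Targets

/-!
# Layers: approximation of a self-adjoint contraction by decreasing projections
(row LAY of the board gmm, helper10)
-/

set_option autoImplicit false

open scoped InnerProductSpace Topology
open Filter Finset
open Pool.Agent.H80.G2

namespace Pool.Agent.H10.G2

variable {H : Type} [NormedAddCommGroup H] [InnerProductSpace ℂ H] [CompleteSpace H]

/-- the cut points -/
noncomputable def tt (K k : ℕ) : ℝ := -1 + 2 * k / K

/-- the positive part above a cut point -/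
noncomputable def gf (K k : ℕ) (s : ℝ) : ℝ := max (s - tt K k) 0

/-- the layer -/
noncomputable def ff (K k : ℕ) (s : ℝ) : ℝ := gf K k s - gf K (k + 1) s

theorem gf_cont (K k : ℕ) : Continuous (gf K k) := by
  unfold gf
  fun_prop

theorem ff_cont (K k : ℕ) : Continuous (ff K k) := (gf_cont K k).sub (gf_cont K (k + 1))

theorem tt_succ (K k : ℕ) : tt K (k + 1) = tt K k + 2 / K := by
  unfold tt
  push_cast
  ring

theorem ff_nonneg (K k : ℕ) (s : ℝ) : 0 ≤ ff K k s := by
  unfold ff gf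
  rw [tt_succ]
  have h : (0 : ℝ) ≤ 2 / K := by positivity
  rw [sub_nonneg]
  exact max_le_max (by linarith) le_rfl

theorem ff_le (K k : ℕ) (s : ℝ) : ff K k s ≤ 2 / K := by
  unfold ff gf
  rw [tt_succ]
  have h : (0 : ℝ) ≤ 2 / K := by positivity
  rcases le_total (s - tt K k) 0 with h1 | h1
  · rw [max_eq_right h1]
    have : 0 ≤ max (s - (tt K k + 2 / K)) 0 := le_max_right _ _
    linarith
  · rw [max_eq_left h1]
    have : s - (tt K k + 2 / K) ≤ max (s - (tt K k + 2 / K)) 0 := le_max_left _ _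
    linarith

/-- the quotient functions -/
noncomputable def qf (K k : ℕ) (s : ℝ) : ℝ := 1 / max (s - tt K k) (2 / K)

theorem qf_cont {K : ℕ} (hK : 0 < K) (k : ℕ) : Continuous (qf K k) := by
  unfold qf
  have h : (0 : ℝ) < 2 / K := by
    have : (0 : ℝ) < K := by exact_mod_cast hK
    positivity
  refine Continuous.div continuous_const (by fun_prop) fun s => ?_
  have : 2 / (K : ℝ) ≤ max (s - tt K k) (2 / K) := le_max_right _ _
  exact (lt_of_lt_of_le h this).ne'

theorem gf_succ {K : ℕ} (hK : 0 < K) (k : ℕ) (s : ℝ) :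
    gf K (k + 1) s = gf K k s * (qf K k s * gf K (k + 1) s) := by
  have hK' : (0 : ℝ) < K := by exact_mod_cast hK
  have h : (0 : ℝ) < 2 / K := by positivity
  unfold gf qf
  rw [tt_succ]
  rcases le_total (s - (tt K k + 2 / K)) 0 with h1 | h1
  · rw [max_eq_right h1]
    ring
  · have h2 : 2 / (K : ℝ) ≤ s - tt K k := by linarith
    rw [max_eq_left h1, max_eq_left h2, max_eq_left (h.le.trans h2)]
    have h3 : s - tt K k ≠ 0 := (lt_of_lt_of_le h h2).ne'
    field_simp

theorem ff_eq {K : ℕ} (hK : 0 < K) (k : ℕ) (s : ℝ) :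
    ff K k s = gf K k s * ((2 / K) * qf K k s) := by
  have hK' : (0 : ℝ) < K := by exact_mod_cast hK
  have h : (0 : ℝ) < 2 / K := by positivity
  unfold ff gf qf
  rw [tt_succ]
  rcases le_total (s - tt K k) 0 with h1 | h1
  · rw [max_eq_right h1, max_eq_right (by linarith : s - (tt K k + 2 / K) ≤ 0)]
    ring
  · rw [max_eq_left h1]
    rcases le_total (s - tt K k) (2 / K) with h2 | h2
    · rw [max_eq_right h2, max_eq_right (by linarith : s - (tt K k + 2 / K) ≤ 0)]
      field_simp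
      ring
    · rw [max_eq_left h2, max_eq_left (by linarith : 0 ≤ s - (tt K k + 2 / K))]
      have h3 : s - tt K k ≠ 0 := (lt_of_lt_of_le h h2).ne'
      field_simp
      ring

theorem ff_mul (K k : ℕ) (s : ℝ) : ff K k s * gf K (k + 1) s = (2 / K) * gf K (k + 1) s := by
  have h : (0 : ℝ) ≤ 2 / K := by positivity
  unfold ff gf
  rw [tt_succ]
  rcases le_total (s - (tt K k + 2 / K)) 0 with h1 | h1
  · rw [max_eq_right h1]
    ring
  · rw [max_eq_left h1, max_eq_left (by linarith : 0 ≤ s - tt K k)]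
    ring

theorem sum_ff {K : ℕ} (hK : 0 < K) (s : ℝ) (h1 : -1 ≤ s) (h2 : s ≤ 1) :
    ∑ k ∈ range K, ff K k s = s + 1 := by
  have hK' : (0 : ℝ) < K := by exact_mod_cast hK
  unfold ff
  rw [Finset.sum_range_sub']
  unfold gf tt
  have e1 : (-1 : ℝ) + 2 * (K : ℝ) / K = 1 := by
    field_simp
    norm_num
  rw [e1, max_eq_right (by linarith : s - 1 ≤ 0)]
  have e2 : s - (-1 + 2 * ((0 : ℕ) : ℝ) / K) = s + 1 := by
    push_cast
    ring
  rw [e2, max_eq_left (by linarith)]
  ring

theorem spec_le (a : H →L[ℂ] H) (ha : ‖a‖ ≤ 1) (s : ℝ) (hs : s ∈ spectrum ℝ a) :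
    -1 ≤ s ∧ s ≤ 1 := by
  have h1 := spectrum.norm_le_norm_mul_of_mem hs
  have h2 : ‖(1 : H →L[ℂ] H)‖ ≤ 1 := ContinuousLinearMap.norm_id_le
  have h3 : |s| ≤ 1 := by
    rw [← Real.norm_eq_abs]
    refine h1.trans ?_
    nlinarith [norm_nonneg a, norm_nonneg (1 : H →L[ℂ] H)]
  exact abs_le.1 h3

theorem sum_cfc {K : ℕ} (hK : 0 < K) (a : H →L[ℂ] H) (has : IsSelfAdjoint a) (ha : ‖a‖ ≤ 1) :
    ∑ k ∈ range K, cfc (ff K k) a = a + 1 := by
  rw [← cfc_sum (fun k => ff K k) a (range K) (fun k _ => (ff_cont K k).continuousOn)]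
  have h1 : cfc (∑ k ∈ range K, fun x => ff K k x) a = cfc (fun s : ℝ => s + 1) a := by
    apply cfc_congr
    intro s hs
    obtain ⟨h1, h2⟩ := spec_le a ha s hs
    rw [Finset.sum_apply]
    exact sum_ff hK s h1 h2
  rw [h1, cfc_add a (fun s : ℝ => s) (fun _ => (1 : ℝ)), cfc_id' ℝ a, cfc_const_one ℝ a]

/-- the layer is below the projection -/
theorem layer_le {K : ℕ} (hK : 0 < K) (k : ℕ) (a : H →L[ℂ] H) (has : IsSelfAdjoint a)
    (e : H →L[ℂ] H) (hes : star e = e) (hee : e * e = e)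
    (heg : e * cfc (gf K k) a = cfc (gf K k) a) :
    cfc (ff K k) a ≤ (2 / K : ℝ) • e := by
  have h1 : cfc (ff K k) a = cfc (gf K k) a * cfc (fun s => (2 / K) * qf K k s) a := by
    rw [← cfc_mul (gf K k) (fun s => (2 / K) * qf K k s) a (gf_cont K k).continuousOn
      (continuous_const.mul (qf_cont hK k)).continuousOn]
    exact cfc_congr fun s _ => ff_eq hK k s
  have h2 : e * cfc (ff K k) a = cfc (ff K k) a := by
    rw [h1, ← mul_assoc, heg]
  have h3 : cfc (ff K k) a * e = cfc (ff K k) a := by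
    have h4 := congrArg star h2
    have h5 : star (cfc (ff K k) a) = cfc (ff K k) a := IsSelfAdjoint.cfc
    rw [star_mul, h5, hes] at h4
    exact h4
  have h4 : cfc (ff K k) a ≤ algebraMap ℝ (H →L[ℂ] H) (2 / K) :=
    cfc_le_algebraMap (ff K k) (2 / K) a (fun s _ => ff_le K k s) (ff_cont K k).continuousOn has
  have h5 := star_left_conjugate_le_conjugate h4 e
  rw [hes, h2, h3] at h5
  refine h5.trans (le_of_eq ?_)
  rw [Algebra.algebraMap_eq_smul_one, mul_smul_comm, mul_one, smul_mul_assoc, hee]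

/-- the layer is above the next projection -/
theorem le_layer (K k : ℕ) (a : H →L[ℂ] H)
    (e : H →L[ℂ] H) (hes : star e = e) (hee : e * e = e)
    (hk : ∀ b : H →L[ℂ] H, b * cfc (gf K (k + 1)) a = 0 → b * e = 0) :
    (2 / K : ℝ) • e ≤ cfc (ff K k) a := by
  have h1 : cfc (ff K k) a * cfc (gf K (k + 1)) a = (2 / K : ℝ) • cfc (gf K (k + 1)) a := by
    rw [← cfc_mul (ff K k) (gf K (k + 1)) a (ff_cont K k).continuousOn
      (gf_cont K (k + 1)).continuousOn, ← cfc_smul (2 / K : ℝ) (gf K (k + 1)) a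
      (gf_cont K (k + 1)).continuousOn]
    exact cfc_congr fun s _ => ff_mul K k s
  have h2 : cfc (ff K k) a * e = (2 / K : ℝ) • e := by
    have h3 := hk (cfc (ff K k) a - (2 / K : ℝ) • (1 : H →L[ℂ] H)) (by
      rw [sub_mul, h1, smul_mul_assoc, one_mul, sub_self])
    rw [sub_mul, smul_mul_assoc, one_mul] at h3
    exact sub_eq_zero.1 h3
  have h4 : e * cfc (ff K k) a = (2 / K : ℝ) • e := by
    have h5 := congrArg star h2
    have h6 : star (cfc (ff K k) a) = cfc (ff K k) a := IsSelfAdjoint.cfc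
    rw [star_mul, h6, hes, star_smul, hes] at h5
    exact h5
  have h0 : 0 ≤ cfc (ff K k) a := cfc_nonneg fun s _ => ff_nonneg K k s
  have h5 := star_left_conjugate_nonneg h0 (1 - e)
  have h6 : star (1 - e) * cfc (ff K k) a * (1 - e) = cfc (ff K k) a - (2 / K : ℝ) • e := by
    rw [star_sub, star_one, hes, sub_mul, one_mul, h4, sub_mul, mul_sub, mul_sub, mul_one, mul_one,
      h2, smul_mul_assoc, hee]
    abel
  rw [h6] at h5
  exact sub_nonneg.1 h5

/-- LAY: decreasing projections -/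
theorem pf_LAY (hCFC : T_CFC) (hRNG : T_RNG) : T_LAY := by
  intro H _ _ _ M a haM has ha K hK
  have has' : IsSelfAdjoint a := has
  have hK' : (0 : ℝ) < K := by exact_mod_cast hK
  have hr := fun k => hRNG H M (cfc (gf K k) a) (hCFC H M a haM has (gf K k))
    (IsSelfAdjoint.cfc : IsSelfAdjoint (cfc (gf K k) a))
  choose e he heg hek _ using hr
  refine ⟨e, he, ?_, ?_⟩
  · intro k
    have h1 : (1 - e k) * cfc (gf K (k + 1)) a = 0 := by
      have h2 : cfc (gf K (k + 1)) a =
          cfc (gf K k) a * cfc (fun s => qf K k s * gf K (k + 1) s) a := by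
        rw [← cfc_mul (gf K k) (fun s => qf K k s * gf K (k + 1) s) a (gf_cont K k).continuousOn
          ((qf_cont hK k).mul (gf_cont K (k + 1))).continuousOn]
        exact cfc_congr fun s _ => gf_succ hK k s
      rw [h2, ← mul_assoc, sub_mul, one_mul, heg k, sub_self, zero_mul]
    have h3 := hek (k + 1) (1 - e k) h1
    rw [sub_mul, one_mul] at h3
    exact (sub_eq_zero.1 h3).symm
  · have hle : ∀ k, cfc (ff K k) a ≤ (2 / K : ℝ) • e k := fun k =>
      layer_le hK k a has' (e k) (he k).2.1 (he k).2.2 (heg k)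
    have hge : ∀ k, (2 / K : ℝ) • e (k + 1) ≤ cfc (ff K k) a := fun k =>
      le_layer K k a (e (k + 1)) (he (k + 1)).2.1 (he (k + 1)).2.2 (hek (k + 1))
    have hsum := sum_cfc hK a has' ha
    have hpos : ∀ k, 0 ≤ e k := fun k => by
      have h1 := star_left_conjugate_nonneg (zero_le_one' (H →L[ℂ] H)) (e k)
      rwa [(he k).2.1, mul_one, (he k).2.2] at h1
    have hle1 : ∀ k, e k ≤ 1 := fun k => by
      have h1 := star_left_conjugate_nonneg (zero_le_one' (H →L[ℂ] H)) (1 - e k)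
      have h2 : star (1 - e k) * 1 * (1 - e k) = 1 - e k := by
        rw [star_sub, star_one, (he k).2.1, mul_one, sub_mul, one_mul, mul_sub, mul_one,
          (he k).2.2, sub_self, sub_zero]
      rw [h2] at h1
      exact sub_nonneg.1 h1
    have hD0 : a + 1 ≤ (2 / K : ℝ) • ∑ k ∈ range K, e k := by
      rw [← hsum, Finset.smul_sum]
      exact Finset.sum_le_sum fun k _ => hle k
    have hD1 : (2 / K : ℝ) • ∑ k ∈ range K, e (k + 1) ≤ a + 1 := by
      rw [← hsum, Finset.smul_sum]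
      exact Finset.sum_le_sum fun k _ => hge k
    have hshift : ∑ k ∈ range K, e (k + 1) = ∑ k ∈ range K, e k - e 0 + e K := by
      have h1 := Finset.sum_range_succ e K
      have h2 := Finset.sum_range_succ' e K
      rw [h1] at h2
      have h3 : ∑ k ∈ range K, e (k + 1) = (∑ k ∈ range K, e (k + 1) + e 0) - e 0 := by abel
      rw [h3, ← h2]
      abel
    have hr0 : (0 : ℝ) ≤ 2 / K := by positivity
    have hD2 : (2 / K : ℝ) • ∑ k ∈ range K, e k - (a + 1) ≤
        algebraMap ℝ (H →L[ℂ] H) (2 / K) := by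
      rw [hshift, smul_add, smul_sub] at hD1
      have h1 : 0 ≤ (2 / K : ℝ) • e K := smul_nonneg hr0 (hpos K)
      have h2 : (2 / K : ℝ) • e 0 ≤ (2 / K : ℝ) • (1 : H →L[ℂ] H) :=
        smul_le_smul_of_nonneg_left (hle1 0) hr0
      rw [Algebra.algebraMap_eq_smul_one]
      have h3 : (2 / K : ℝ) • ∑ k ∈ range K, e k - (2 / K : ℝ) • e 0 ≤ a + 1 :=
        (le_add_of_nonneg_right h1).trans hD1
      have h4 : (2 / K : ℝ) • ∑ k ∈ range K, e k - (a + 1) ≤ (2 / K : ℝ) • e 0 := by
        rw [sub_le_comm] at h3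
        exact h3
      exact h4.trans h2
    have hnorm := (CStarAlgebra.norm_le_iff_le_algebraMap
      ((2 / K : ℝ) • ∑ k ∈ range K, e k - (a + 1)) hr0 (sub_nonneg.2 hD0)).2 hD2
    have hcoe : ((2 / K : ℝ) : ℂ) • ∑ k ∈ range K, e k = (2 / K : ℝ) • ∑ k ∈ range K, e k :=
      Complex.coe_smul _ _
    rw [hcoe, ← norm_neg, neg_sub]
    exact hnorm

end Pool.Agent.H10.G2
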